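import Mathlib
import Pool.Agent.N883.FG.Lf2
import Pool.Agent.N883.FF.End

/-!
# The rank part of the Beilinson–Bloch conjecture for diagonal cubic curves, threefolds and fivefolds
# over `K = ℚ(√-3)`, for a majority of ALL the classes of elements prime to `3`

`K` is the field of the third roots of unity.  `D` runs through the cube-free nonunits of `𝓞 K` that
are congruent to a third root of unity modulo `3`: these are representatives of all the classes of
`K^* / (K^*)³` that contain an element prime to `3` (except the classes of the units).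

For `c = 0, 1, 2` and exponents `m_0, ..., m_{2c+2}` let `X_m` be the smooth cubic hypersurface
`D^{m_0} x_0³ + … + D^{m_{2c+2}} x_{2c+2}³ = 0` of dimension `n = 2 c + 1` over `K`, and let `E_δ` be the
curve `y² + δ y = x³`.  Let `D` be in the family, outside of one of the nine classes modulo cubes of the
completion at `√-3`.

* The functions `L(H^n(X_m / K), s)` are entire, for all the `m` and `c = 0, 1, 2`; so are the functions
  `L(H^n(X_1 / F), s)` of the Fermat cubics over the extensions `F = K(∛D)`, over which all the `X_m` are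
  isomorphic to the Fermat cubics.
* If `E_D(K)` is finite and `Ш(E_D / K)[3^∞] = 0` (the proportion of these `D` among ALL the `D` tends to
  `8 / 9 * ∏_{i ≥ 0} (1 - 3^{-(2 i + 1)}) = 0.5680...`), then the groups `E_{D^k}(K)` are finite for all `k`
  and `L(H^n(X_m / K), (n + 1) / 2) ≠ 0` for all the `m` and `c = 0, 1, 2`; and over the extensions
  `F = K(∛D)` the group `E_1(F)` is finite and `L(H^n(X_1 / F), (n + 1) / 2) ≠ 0`.

The `L`-function is given by the numbers of points: for a place `v` not dividing `3 D` the eigenvalues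
`α` of the Frobenius on `H^n(X_m)` (`2`, `10` and `42` for `n = 1, 3, 5`) are determined by

  `#X_m(k') = 1 + q' + ... + q'^n - ∑ α^r`

for all the finite extensions `k'` of the residue field, `q' = #k'`, `r` the degree of `k'`.  By this and
by Faltings `H^n(X_m)` is the direct sum of the `H^1(E_{δ_T})(-c)` over the sets `T` of `c` indices,
`δ_T = D^(∑ m i + ∑_{i ∈ T} m i)`.  At the places dividing `D`, but not `3`, the curves `E_{δ_T}` with
an exponent divisible by `3` are isomorphic to `E_1` and have good reduction, the others have no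
invariants of inertia; at the places dividing `3` none of the curves has invariants of inertia.

Relation to the conjecture (not formalized): the intermediate Jacobian `J` of `X_m` is isogenous over
`K` to the product of the `E_{δ_T}`, and the group of the homologically trivial cycles of codimension
`i`, tensored with `ℚ`, is `J(K) ⊗ ℚ` for `i = c + 1` and `0` for all the other `i` (Murre, Bloch and
Murre, Bloch and Srinivas for threefolds; Collino, Paranjape for fivefolds).  So, for more than `56.8`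
percent of ALL the `D`, `rank CH^i(X)_hom = ord_{s = i} L(H^{2 i - 1}(X), s)` (both are zero) for
all `i` and for `X = X_m` over `K`, all `m`, and `X = X_1` over `F = K(∛D)`.

Joint work; see the headers of `Pool/Agent/N883/FF/End.lean` and of the files imported there.
-/

set_option autoImplicit false

namespace Pool.Agent.Results.MP_b8021b_nt.MajorityDiagonalCubics

open NumberField IsDedekindDomain WeierstrassCurve
open Pool.Agent.TH841.NF.D (Sha)
open scoped Classical

/-- The curve `E_D : y² + D y = x³`. -/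
def curve {F : Type} [Field F] (D : F) : WeierstrassCurve F := ⟨0, 0, D, 0, 0⟩

/-- The solutions, not all zero, of `∑ a i x i ^ 3 = 0` in the field `F`. -/
def solutions {m : ℕ} {F : Type} [Field F] (a : Fin m → F) : Set (Fin m → F) :=
  {x | x ≠ 0 ∧ ∑ i, a i * x i ^ 3 = 0}

variable {K : Type} [Field K] [NumberField K]

/-- `A` is the multiset of the eigenvalues of the Frobenius at `v` on `H^n(X)`, for the hypersurface
`X : ∑ a i x i ^ 3 = 0` of dimension `n = 2 c + 1`: for every extension `F` of degree `r` of the residue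
field of `v` (`f` is the reduction), with `q'` elements, the equation has
`(q' - 1) (1 + q' + ... + q'^n - ∑ α^r)` nonzero solutions in `F`. -/
def IsFrobenius {c : ℕ} (a : Fin (2 * c + 3) → 𝓞 K) (v : HeightOneSpectrum (𝓞 K))
    (A : Multiset ℂ) : Prop :=
  ∀ (F : Type) [Field F] [Finite F] (f : 𝓞 K →+* F) (r : ℕ), RingHom.ker f = v.asIdeal →
    Nat.card F = Ideal.absNorm v.asIdeal ^ r →
    ((solutions fun i => f (a i)).ncard : ℂ) = (Nat.card F - 1) *
      (∑ i ∈ Finset.range (2 * c + 2), (Nat.card F : ℂ) ^ i - (A.map (fun α => α ^ r)).sum)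

/-- `L` is entire and equal to `L(H^n(X_m / K), s)` for `Re s > n / 2 + 1`, for the hypersurface
`X_m : ∑ D ^ m i x i ^ 3 = 0` of dimension `n = 2 c + 1`.  At the places `v` not dividing `3 D` the
`2 (2c+3 choose c)` eigenvalues of the Frobenius have the absolute value `N(v)^(n / 2)`.  At the places
dividing `D`, but not `3`, every set `T` of `c` indices for which `∑ m i + ∑_{i ∈ T} m i` is divisible by
`3` gives the two eigenvalues `N(v)^c β`, `N(v)^c conj β` of `H^1(E_1)(-c)`, and the others give none.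
At the places dividing `3` the Euler factor is `1`. -/
def IsLFunction {c : ℕ} (m : Fin (2 * c + 3) → ℕ) (D : 𝓞 K) (L : ℂ → ℂ) : Prop :=
  Differentiable ℂ L ∧ ∃ A : HeightOneSpectrum (𝓞 K) → Multiset ℂ,
    (∀ v, (3 : 𝓞 K) ∉ v.asIdeal → D ∉ v.asIdeal → IsFrobenius (fun i => D ^ m i) v (A v) ∧
      (A v).card = 2 * (2 * c + 3).choose c ∧
      ∀ α ∈ A v, ‖α‖ ^ 2 = (Ideal.absNorm v.asIdeal : ℝ) ^ (2 * c + 1)) ∧
    (∀ v, (3 : 𝓞 K) ∉ v.asIdeal → D ∈ v.asIdeal → ∃ β : ℂ,
      β * (starRingEnd ℂ) β = Ideal.absNorm v.asIdeal ∧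
      (Nat.card {P : (𝓞 K ⧸ v.asIdeal) × (𝓞 K ⧸ v.asIdeal) // P.2 ^ 2 + P.2 = P.1 ^ 3} : ℂ) =
        Ideal.absNorm v.asIdeal - (β + (starRingEnd ℂ) β) ∧
      A v = {T ∈ (Finset.univ : Finset (Fin (2 * c + 3))).powersetCard c |
          3 ∣ ∑ i, m i + ∑ i ∈ T, m i}.card •
        ({(Ideal.absNorm v.asIdeal : ℂ) ^ c * β,
          (Ideal.absNorm v.asIdeal : ℂ) ^ c * (starRingEnd ℂ) β} : Multiset ℂ)) ∧
    (∀ v, (3 : 𝓞 K) ∈ v.asIdeal → A v = 0) ∧
    ∀ s : ℂ, (2 * c + 1 : ℝ) / 2 + 1 < s.re →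
      HasProd (fun v : HeightOneSpectrum (𝓞 K) => ((A v).map
        (fun α => (1 - α * (Ideal.absNorm v.asIdeal : ℂ) ^ (-s))⁻¹)).prod) (L s)

/-- The functions `L(H^n(X_m / K), s)` are entire for all the `m` and `n = 1, 3, 5`. -/
def Continues (D : 𝓞 K) : Prop :=
  ∀ c : ℕ, c ≤ 2 → ∀ m : Fin (2 * c + 3) → ℕ, ∃ L : ℂ → ℂ, IsLFunction m D L

/-- The groups `E_{D^k}(K)` are finite for all the `k`, and `L(H^n(X_m / K), s)` is entire and not zero
at `s = (n + 1) / 2` for all the `m` and `n = 2 c + 1 = 1, 3, 5`. -/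
def RankZero (D : 𝓞 K) : Prop :=
  (∀ k : ℕ, Finite (curve ((D : K) ^ k)).toAffine.Point) ∧
  ∀ c : ℕ, c ≤ 2 → ∀ m : Fin (2 * c + 3) → ℕ, ∃ L : ℂ → ℂ, IsLFunction m D L ∧ L (c + 1) ≠ 0

/-- `D` is a cube-free nonunit, congruent to a third root of unity modulo `3`. -/
def InFamily (D : 𝓞 K) : Prop :=
  ¬ IsUnit D ∧ (∀ x : 𝓞 K, x ^ 3 ∣ D → IsUnit x) ∧ ∃ ω : 𝓞 K, ω ^ 3 = 1 ∧ (3 : 𝓞 K) ∣ D - ω

/-- The exceptional class: `D` is `1` modulo `3` and its norm is `1` modulo `9`. -/
def Exceptional (D : 𝓞 K) : Prop := (3 : 𝓞 K) ∣ D - 1 ∧ (9 : ℤ) ∣ Algebra.norm ℤ D - 1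

/-- `E_D(K)` is finite and the `3`-primary part of `Ш(E_D / K)` is trivial. -/
def FiniteAndTrivial (D : 𝓞 K) : Prop :=
  Finite (curve (D : K)).toAffine.Point ∧ ∀ (n : ℕ) (x : Sha (curve (D : K))), 3 ^ n • x = 0 → x = 0

theorem result (K : Type) [Field K] [NumberField K] [IsCyclotomicExtension {3} ℚ K] :
    (∃ c : ℝ, 0 < c ∧ ∃ X₀ : ℕ, ∀ X : ℕ, X₀ ≤ X →
      c * X ≤ ({D : 𝓞 K | Algebra.norm ℤ D ≤ X ∧ InFamily D}.ncard : ℝ)) ∧
    Filter.Tendsto (fun X : ℕ =>
      ({D : 𝓞 K | Algebra.norm ℤ D ≤ X ∧ InFamily D ∧ ¬ Exceptional D ∧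
        FiniteAndTrivial D}.ncard : ℝ) /
        ({D : 𝓞 K | Algebra.norm ℤ D ≤ X ∧ InFamily D}.ncard : ℝ)) Filter.atTop
      (nhds (8 / 9 * ∏' i : ℕ, (1 - (1 / 3 : ℝ) ^ (2 * i + 1)))) ∧
    (0.568 : ℝ) < 8 / 9 * ∏' i : ℕ, (1 - (1 / 3 : ℝ) ^ (2 * i + 1)) ∧
    ∀ D : 𝓞 K, InFamily D → ¬ Exceptional D →
      Continues D ∧ (FiniteAndTrivial D → RankZero D) ∧
      (∃ (F : Type) (_ : Field F) (_ : NumberField F) (_ : Algebra K F) (θ : F),
        Module.finrank K F = 3 ∧ θ ^ 3 = algebraMap K F D) ∧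
      ∀ (F : Type) [Field F] [NumberField F] [Algebra K F] (θ : F),
        Module.finrank K F = 3 → θ ^ 3 = algebraMap K F D →
        Continues (1 : 𝓞 F) ∧ (FiniteAndTrivial D → RankZero (1 : 𝓞 F)) := by
  obtain ⟨h1, h2, h3, h4⟩ := Pool.Agent.N883.FF.finalB K
  refine ⟨h1, h3, h4, fun D hD hx => ?_⟩
  obtain ⟨f1, f2, f3⟩ := Pool.Agent.N883.FG.finalLf Pool.Agent.N883.FF.partsB (K := K) (D := D) hD hx
  obtain ⟨-, -, a3, -, -⟩ := h2 D hD hx
  exact ⟨f1, fun ht => (f3 ht).1, a3, fun F _ _ _ θ hd hθ =>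
    ⟨f2 F θ hd hθ, fun ht => (f3 ht).2 F θ hd hθ⟩⟩

end Pool.Agent.Results.MP_b8021b_nt.MajorityDiagonalCubics
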