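import Pool.Agent.N844.QH.L15
import Pool.Agent.N844.QH.L24
import Pool.Agent.N877.P24.All
import Pool.Agent.N916.AM.Fd
import Pool.Agent.N875.X15.ClE
import Pool.Agent.N875.X15.Conv3
import Pool.Agent.N969.P15.QF

/-!
# The Beilinson–Bloch conjecture for cycles of codimension three on intersections of two quadrics in `P⁷`

Let `X ⊂ P⁷` be a smooth complete intersection of two quadrics over `ℚ`, the base locus of a pencil with
the discriminant curve `C_n : y² = n x (x² - 1) (x - 2) (2x + 1) (x + 3) (3x - 1)` of genus three. The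
Jacobian of `C_n` is isogenous to `E15_n × E24_n × E24_n`, where `E15_n : y² = x (x + 16n) (x - 9n)` and
`E24_n : y² = x (x + n) (x - 3n)` are the quadratic twists by `-n` of the modular curves `X_0(15)` and
`X_0(24)` (no complex multiplication). By Reid and Donagi `CH³(X)_hom ⊗ ℚ = J(C_n)(ℚ) ⊗ ℚ` and
`H⁵(X) = H¹(C_n)(-2)` (these two facts are not formalized here; the numbers of points, which determine the
`L`-function, are computed).

Let `-N` be a fundamental discriminant such that `2` is inert or `8 ∣ N`, `3` is not inert and `5` is not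
split in `ℚ(√-N)`, and let `n = N` or `N / 4` be squarefree. For ALL these `N` and ALL the integral pencils
with the discriminant curve `C_n` the numbers of points of `X` over all finite fields of the good
characteristics are computed, the `L`-function of `H⁵(X)` is entire, and, if the ideal class group of
`ℚ(√-n)` has no element of order four, it does not vanish at the centre `s = 3`, and the groups
`E15_n(ℚ)`, `E24_n(ℚ)` are finite: both sides of the conjecture are zero. This happens for a set of `N` of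
natural density `∏_{i ≥ 1} (1 - 2^{-i}) = 0.2888…` in the family. For every `n` an explicit pencil with a
rational point on `X` is given.

The eight roots of the discriminant are the eight integral points of the circle of radius `√5`; the
Jacobian is computed by elementary character sums (`Pool/Agent/N844/QH`). The theorems on the twists of
`X_0(15)` and `X_0(24)` are joint work of many helpers (see `MP_696deb_nt/TwistsX15Neg`,
`MP_92892c_nt/TwoPartTwistsX24`).
-/

set_option autoImplicit false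
set_option linter.style.haveILetI false

open Finset Matrix
open scoped LinearAlgebra.Projectivization

namespace Pool.Agent.Results.MP_b8021b_nt.QuadricFivefolds

/-- `E15_n : y² = x (x + 16 n) (x - 9 n)`, the twist of `X_0(15)` by `-n` -/
def E15 (n : ℕ) : WeierstrassCurve ℚ :=
  { a₁ := 0, a₂ := 7 * (n : ℚ), a₃ := 0, a₄ := -144 * (n : ℚ) ^ 2, a₆ := 0 }

/-- `E24_n : y² = x (x + n) (x - 3 n)`, the twist of `X_0(24)` by `-n` -/
def E24 (n : ℕ) : WeierstrassCurve ℚ :=
  { a₁ := 0, a₂ := -2 * (n : ℚ), a₃ := 0, a₄ := -3 * (n : ℚ) ^ 2, a₆ := 0 }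

/-- `-N` is a fundamental discriminant -/
def FundNeg (N : ℕ) : Prop := (Squarefree N ∧ N % 4 = 3) ∨
  ∃ m : ℕ, N = 4 * m ∧ Squarefree m ∧ (m % 4 = 1 ∨ m % 4 = 2)

/-- the family: `-N` is a fundamental discriminant, `2` is inert or `8 ∣ N`, `3` is not inert and `5` is
not split in `ℚ(√-N)` -/
def Family (N : ℕ) : Prop := FundNeg N ∧ (N % 8 = 3 ∨ 8 ∣ N) ∧ N % 3 ≠ 1 ∧
  (N % 5 = 0 ∨ N % 5 = 2 ∨ N % 5 = 3)

/-- the squarefree number `n` with `ℚ(√-N) = ℚ(√-n)` -/
def sf (N : ℕ) : ℕ := if N % 2 = 1 then N else N / 4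

/-- the ideal class group of `ℚ(√-n)` has no element of order four -/
def NoOrderFour (n : ℕ) : Prop :=
  ∀ (K : Type) [Field K] [NumberField K], Module.finrank ℚ K = 2 → (∃ s : K, s ^ 2 = -(n : K)) →
    ∀ c : ClassGroup (NumberField.RingOfIntegers K), orderOf c ≠ 4

open Classical in
/-- the number of the `N ≤ X` of the family -/
noncomputable def total (X : ℕ) : ℕ := ((Icc 1 X).filter fun N => Family N).card

open Classical in
/-- the number of those for which the class group of `ℚ(√-N)` has no element of order four -/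
noncomputable def good (X : ℕ) : ℕ :=
  ((Icc 1 X).filter fun N => Family N ∧ NoOrderFour (sf N)).card

/-- the quadratic form of a matrix -/
def qf {R : Type*} [CommRing R] {N : ℕ} (M : Matrix (Fin N) (Fin N) R) (y : Fin N → R) : R :=
  y ⬝ᵥ (M *ᵥ y)

/-- the integral pencils of quadrics in `P⁷` with the discriminant curve
`y² = n x (x² - 1) (x - 2) (2x + 1) (x + 3) (3x - 1)` -/
structure IsPencil (n m : ℤ) (A B : Matrix (Fin 8) (Fin 8) ℤ) : Prop where
  symA : A.IsSymm
  symB : B.IsSymm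
  disc : ∀ x z : ℤ, (x • A - z • B).det = n * m ^ 2 * (x * z * (x ^ 2 - z ^ 2) * (x - 2 * z) *
    (2 * x + z) * (x + 3 * z) * (3 * x - z))

/-- the reduction of an integral matrix to a field -/
def red {N : ℕ} (A : Matrix (Fin N) (Fin N) ℤ) (k : Type) [Field k] : Matrix (Fin N) (Fin N) k :=
  A.map (Int.castRingHom k)

/-- the base locus of the pencil is smooth over `k` (Jacobian criterion at the points over `k`) -/
def Smooth (A B : Matrix (Fin 8) (Fin 8) ℤ) (k : Type) [Field k] : Prop :=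
  ∀ y : Fin 8 → k, y ≠ 0 → qf (red A k) y = 0 → qf (red B k) y = 0 →
    LinearIndependent k ![red A k *ᵥ y, red B k *ᵥ y]

/-- the number of points over `k` of the base locus `X ⊂ P⁷` of the pencil -/
noncomputable def numP (A B : Matrix (Fin 8) (Fin 8) ℤ) (k : Type) [Field k] : ℕ :=
  Nat.card {P : ℙ k (Fin 8 → k) // qf (red A k) P.rep = 0 ∧ qf (red B k) P.rep = 0}

/-- the trace of Frobenius of `y² = x (x + u) (x + v)` over the finite field `k` -/
noncomputable def trace (k : Type) [Field k] (u v : ℤ) : ℤ :=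
  Nat.card k - Nat.card {P : k × k // P.2 ^ 2 = P.1 * (P.1 + (u : k)) * (P.1 + (v : k))}

/-- the number of points of `X` over `k`: `H⁵(X) = (H¹(E15_n) ⊕ H¹(E24_n) ⊕ H¹(E24_n))(-2)` -/
def Decomposition (A B : Matrix (Fin 8) (Fin 8) ℤ) (n : ℤ) (k : Type) [Field k] : Prop :=
  (numP A B k : ℤ) = ∑ i ∈ range 6, (Nat.card k : ℤ) ^ i -
    (Nat.card k : ℤ) ^ 2 * (trace k (16 * n) (-9 * n) + 2 * trace k n (-3 * n))

/-- `ω` are the eigenvalues of Frobenius at `p` on `H⁵(X)`: the number of points over every finite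
field `k` with `p ^ r` elements is `1 + p^r + … + p^(5r) - ∑ ω_j^r` -/
def IsFrob (A B : Matrix (Fin 8) (Fin 8) ℤ) (p : ℕ) (ω : Fin 6 → ℂ) : Prop :=
  (∀ j, ‖ω j‖ = (p : ℝ) ^ ((5 : ℝ) / 2)) ∧
    ∀ (k : Type) [Field k] [Fintype k] [CharP k p] (r : ℕ), Fintype.card k = p ^ r →
      (numP A B k : ℂ) = ∑ i ∈ range 6, (p : ℂ) ^ (i * r) - ∑ j, ω j ^ r

/-- `L` is entire and is the Euler product of `∏_j (1 - ω_j p^{-s})⁻¹` over the primes not dividing
`M`, where `ω_j` are the eigenvalues of Frobenius at `p` on `H⁵(X)` -/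
def IsL (A B : Matrix (Fin 8) (Fin 8) ℤ) (M : ℤ) (L : ℂ → ℂ) : Prop :=
  Differentiable ℂ L ∧ ∃ ω : ℕ → Fin 6 → ℂ,
    (∀ p : ℕ, p.Prime → ¬ (p : ℤ) ∣ M → IsFrob A B p (ω p)) ∧
    ∀ s : ℂ, (4 : ℝ) < s.re →
      HasProd (fun p : ℕ => open Classical in
        if p.Prime ∧ ¬ (p : ℤ) ∣ M then ∏ j, (1 - ω p j * (p : ℂ) ^ (-s))⁻¹ else 1) (L s)

/-- `n y₀² - y₂² - y₃² + y₄² + 2 y₅² + y₆² + 3 y₇²` -/
def exA (n : ℤ) : Matrix (Fin 8) (Fin 8) ℤ := diagonal ![n, 0, -1, -1, 1, 2, 1, 3]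

/-- `- y₁² - y₂² + y₃² + 2 y₄² - y₅² - 3 y₆² + y₇²` -/
def exB : Matrix (Fin 8) (Fin 8) ℤ := diagonal ![0, -1, -1, 1, 2, -1, -3, 1]

/-- a rational point -/
def pt : Fin 8 → ℤ := ![0, 1, 1, 0, 1, 0, 0, 0]

section proof

open Pool.Agent.N916.TE (FD Go)
open Pool.Agent.N975.All (mD)
open Pool.Agent.N875.X15 (Ao Ae Fin2)

theorem mD_eq (N : ℕ) : mD N = -(sf N : ℤ) := by
  unfold mD sf
  split_ifs <;> rfl

theorem pos {N : ℕ} (h : Family N) : 0 < N := by
  obtain ⟨⟨h1, -⟩ | ⟨k, rfl, h1, -⟩, -⟩ := h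
  · exact Nat.pos_of_ne_zero h1.ne_zero
  · have := Nat.pos_of_ne_zero h1.ne_zero
    omega

/-- the properties of `n` -/
theorem sf_props {N : ℕ} (h : Family N) : Squarefree (sf N) ∧ (sf N % 8 = 3 ∨ sf N % 4 = 2) ∧
    sf N % 3 ≠ 1 := by
  obtain ⟨h1, h2, h3, -⟩ := h
  unfold sf
  rcases h1 with ⟨hs, h4⟩ | ⟨m, rfl, hs, h4⟩
  · rw [if_pos (by omega)]
    exact ⟨hs, by omega, h3⟩
  · rw [if_neg (by omega), Nat.mul_div_cancel_left m (by norm_num)]
    exact ⟨hs, by omega, by omega⟩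

theorem sf_pos {N : ℕ} (h : Family N) : 0 < sf N := Nat.pos_of_ne_zero (sf_props h).1.ne_zero

lemma order_iff {G : Type} [Group G] : (∀ c : G, orderOf c ≠ 4) ↔ ∀ c : G, c ^ 4 = 1 → c ^ 2 = 1 := by
  constructor
  · intro h c h4
    by_contra h2
    refine h c ?_
    have := orderOf_eq_prime_pow (x := c) (p := 2) (n := 1) (by simpa using h2)
      (by norm_num; exact h4)
    simpa using this
  · intro h c h4
    have h1 : c ^ 4 = 1 := by rw [← h4]; exact pow_orderOf_eq_one c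
    have h2 := orderOf_dvd_of_pow_eq_one (h c h1)
    rw [h4] at h2
    omega

theorem class_iff {N : ℕ} (h : Family N) : NoOrderFour (sf N) ↔ Go N := by
  have h0 := pos h
  obtain ⟨h1, h8, h3, h5⟩ := h
  rcases h1 with ⟨hsq, h4⟩ | hE
  · have ho : N % 2 = 1 := by omega
    have em : sf N = N := if_pos ho
    have key : ∀ (K : Type) [Field K] [NumberField K], Module.finrank ℚ K = 2 →
        (∃ s : K, s ^ 2 = -(sf N : K)) →
        ((∀ c : ClassGroup (NumberField.RingOfIntegers K), orderOf c ≠ 4) ↔ Go N) := by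
      intro K _ _ h6 h7
      rw [em] at h7
      rw [order_iff, Pool.Agent.N875.X15.qc_iff_class hsq h4 K h6 h7,
        ← Pool.Agent.N875.X15.qc_P15 h0.ne']
      exact ⟨fun h => ⟨fun _ => h, fun h2 => by omega⟩, fun h => h.1 ho⟩
    constructor
    · intro h8
      obtain ⟨K, i1, i2, h6, h7⟩ := Pool.Agent.N969.P15.exists_qf (n := sf N) (by rw [em]; exact h0)
      exact (key K h6 h7).1 (h8 K h6 h7)
    · intro h8 K i1 i2 h6 h7
      exact (key K h6 h7).2 h8
  · have ho : N % 2 = 0 := by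
      obtain ⟨k, rfl, -⟩ := hE
      omega
    have h04 : 0 < N / 4 := by
      obtain ⟨k, rfl, -⟩ := hE
      omega
    have em : sf N = N / 4 := if_neg (by omega)
    have hn4 : N ≠ 4 := by omega
    have key : ∀ (K : Type) [Field K] [NumberField K], Module.finrank ℚ K = 2 →
        (∃ s : K, s ^ 2 = -(sf N : K)) →
        ((∀ c : ClassGroup (NumberField.RingOfIntegers K), orderOf c ≠ 4) ↔ Go N) := by
      intro K _ _ h6 h7
      rw [em] at h7
      rw [order_iff, Pool.Agent.N875.X15.qe_iff_class hE hn4 K h6 h7]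
      exact ⟨fun h => ⟨fun h2 => by omega, fun _ => h⟩, fun h => h.2 ho⟩
    constructor
    · intro h8
      obtain ⟨K, i1, i2, h6, h7⟩ := Pool.Agent.N969.P15.exists_qf (n := sf N) (by rw [em]; exact h04)
      exact (key K h6 h7).1 (h8 K h6 h7)
    · intro h8 K i1 i2 h6 h7
      exact (key K h6 h7).2 h8

theorem go_iff {N : ℕ} (h : Family N) : Go N ↔ Pool.Agent.N877.P24.All.QQ (sf N) := by
  obtain ⟨h1, h2, h3, -⟩ := h
  unfold sf Pool.Agent.N916.TE.Go Pool.Agent.N877.P24.All.QQ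
  rcases h1 with ⟨hs, h4⟩ | ⟨m, rfl, hs, h4⟩
  · rw [if_pos (by omega)]
    have e : Pool.Agent.N969.P15.Qc N ↔ Pool.Agent.N877.P24.Qc N := by
      rw [Pool.Agent.N373.P24.qc_iff hs.ne_zero, Pool.Agent.N875.X15.qc_P15 hs.ne_zero]
    constructor
    · exact fun h => ⟨fun _ => e.1 (h.1 (by omega)), fun h0 => by omega⟩
    · exact fun h => ⟨fun _ => e.2 (h.1 (by omega)), fun h0 => by omega⟩
  · rw [if_neg (by omega), Nat.mul_div_cancel_left m (by norm_num)]
    constructor
    · exact fun h => ⟨fun h0 => by omega, fun _ => h.2 (by omega)⟩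
    · exact fun h => ⟨fun h0 => by omega, fun _ => h.2 (by omega)⟩

theorem E15_eq (n : ℕ) : E15 n = Pool.Agent.N875.X15.EQm (-(n : ℤ)) := by
  ext <;> simp [E15, Pool.Agent.N875.X15.Em]

theorem E24_eq (n : ℕ) : E24 n = Pool.Agent.N373.P24.EQm (-(n : ℤ)) := by
  ext <;> simp [E24, Pool.Agent.N373.P24.Em]

theorem finite15 {N : ℕ} (h : Family N) (hG : Go N) : Finite (E15 (sf N)).toAffine.Point := by
  have h2 : Fin2 (Pool.Agent.N875.X15.EQm (-(sf N : ℤ))) := by
    obtain ⟨h1, h8, h3, h5⟩ := h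
    rcases h1 with ⟨hsq, h4⟩ | hE
    · have ho : N % 2 = 1 := by omega
      have em : sf N = N := if_pos ho
      have h6 := Pool.Agent.N875.X15.crit_ao (n := N) ⟨hsq, h4, h3, h5⟩
      rw [em, h6]
      exact hG.1 ho
    · have ho : N % 2 = 0 := by
        obtain ⟨k, rfl, -⟩ := hE
        omega
      have em : sf N = N / 4 := if_neg (by omega)
      have h6 := Pool.Agent.N875.X15.crit_ae (n := N) ⟨hE, h3, h5⟩
      rw [em, h6]
      exact hG.2 ho
  rw [E15_eq]
  exact h2.1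

theorem finite24 {N : ℕ} (h : Family N) (hG : Go N) : Finite (E24 (sf N)).toAffine.Point := by
  obtain ⟨p1, p2, p3⟩ := sf_props h
  rw [E24_eq]
  exact ((Pool.Agent.N877.P24.All.crit_all p1 p2 p3).2 ((go_iff h).1 hG)).1

/-- the `L`-function of `E15_n` -/
theorem lfun15 {N : ℕ} (h : Family N) {M : ℤ} (hM : M ≠ 0) (h30 : 30 * (sf N : ℤ) ∣ M) :
    ∃ H : ℂ → ℂ, Pool.Agent.N844.QH.Eul M (Pool.Agent.N844.QH.a15 (sf N))
      (Pool.Agent.N844.QH.b15 (sf N)) (3 / 2) H ∧ (Go N → H 1 ≠ 0) := by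
  by_cases hG : Go N
  · obtain ⟨H, h1, h2⟩ := Pool.Agent.N844.QH.eul15_ne (n := N) ⟨h.1, h.2.2⟩ hG (c := (sf N : ℤ))
      (mD_eq N) hM h30
    exact ⟨H, h1, fun _ => h2⟩
  · obtain ⟨h1, h8, h3, h5⟩ := h
    rcases h1 with ⟨hsq, h4⟩ | hE
    · have em : sf N = N := if_pos (by omega)
      rw [em] at h30 ⊢
      obtain ⟨H, h2⟩ := Pool.Agent.N844.QH.eul15o (n := N) ⟨hsq, h4, h3, h5⟩ hM h30
      exact ⟨H, h2, fun h => absurd h hG⟩
    · have em : sf N = N / 4 := if_neg (by
        obtain ⟨k, rfl, -⟩ := hE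
        omega)
      rw [em] at h30 ⊢
      obtain ⟨H, h2⟩ := Pool.Agent.N844.QH.eul15e (n := N) ⟨hE, h3, h5⟩ hM h30
      exact ⟨H, h2, fun h => absurd h hG⟩

/-- the `L`-function of `E24_n` -/
theorem lfun24 {N : ℕ} (h : Family N) {M : ℤ} (hM : M ≠ 0) (h30 : 30 * (sf N : ℤ) ∣ M) :
    ∃ H : ℂ → ℂ, Pool.Agent.N844.QH.Eul M (Pool.Agent.N844.QH.a24 (sf N))
      (Pool.Agent.N844.QH.b24 (sf N)) 2 H ∧ (Go N → H 1 ≠ 0) := by
  obtain ⟨p1, p2, p3⟩ := sf_props h
  obtain ⟨y, ⟨f, hf, hL, hv, hΩ⟩, hy⟩ := Pool.Agent.N877.P24.All.val_all p1 p2 p3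
  obtain ⟨H, h1, h2⟩ := Pool.Agent.N844.QH.eul24 p1 p3 hM h30 hf hL
  refine ⟨H, h1, fun hG => h2 ?_⟩
  have hy0 : y ≠ 0 := by
    rintro rfl
    exact absurd (hy.2 ((go_iff h).1 hG)) (by decide)
  have hTm0 : (Pool.Agent.N877.P24.All.Tm (sf N) : ℝ) ≠ 0 := by
    unfold Pool.Agent.N877.P24.All.Tm
    have : (if 2 ∣ sf N then 1 else 2) * (if 3 ∣ sf N then 1 else 2) *
        4 ^ (sf N).primeFactors.card ≠ 0 := by
      split_ifs <;> positivity
    exact_mod_cast this
  have hyr : (y : ℝ) ≠ 0 := by exact_mod_cast hy0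
  rw [hv]
  have := mul_ne_zero (div_ne_zero (mul_ne_zero (pow_ne_zero 2 hyr) hTm0)
    (show (16 : ℝ) ≠ 0 by norm_num)) (mul_ne_zero (show (2 : ℝ) ≠ 0 by norm_num) hΩ.ne')
  exact_mod_cast this

/-- the number of points -/
theorem decomp {n m : ℤ} {A B : Matrix (Fin 8) (Fin 8) ℤ} (h : IsPencil n m A B)
    (k : Type) [Field k] [Finite k] (hk : ((30 * (n * m) : ℤ) : k) ≠ 0) :
    Decomposition A B n k := by
  classical
  let _ : Fintype k := Fintype.ofFinite k
  have h' : Pool.Agent.N844.QH.IsOct n m A B := ⟨h.symA, h.symB, h.disc⟩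
  push_cast at hk
  have h30 : (30 : k) ≠ 0 := left_ne_zero_of_mul hk
  have hnm := right_ne_zero_of_mul hk
  have hn : (n : k) ≠ 0 := left_ne_zero_of_mul hnm
  have hm : (m : k) ≠ 0 := right_ne_zero_of_mul hnm
  have k2 : (2 : k) ≠ 0 := fun h0 => h30 (by linear_combination 15 * h0)
  have k3 : (3 : k) ≠ 0 := fun h0 => h30 (by linear_combination 10 * h0)
  have k5 : (5 : k) ≠ 0 := fun h0 => h30 (by linear_combination 6 * h0)
  have hchar : ringChar k ≠ 2 := by
    intro h0
    apply k2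
    have := ringChar.spec k 2
    rw [h0] at this
    exact_mod_cast this.2 dvd_rfl
  have h1 := h'.num k k2 k3 k5 hn hm
  rw [Pool.Agent.N844.QH.SK15 k k3 n hn, Pool.Agent.N844.QH.SK24 k k3 n hn] at h1
  have e15 : trace k (16 * n) (-9 * n) = - Pool.Agent.N844.QH.U15 (n : k) := by
    unfold trace Pool.Agent.N844.QH.U15
    rw [Pool.Agent.H82R3.EK.card_points hchar
      (fun x : k => x * (x + ((16 * n : ℤ) : k)) * (x + ((-9 * n : ℤ) : k))),
      Nat.card_eq_fintype_card, sub_add_cancel_left]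
    congr 1
    rw [← Pool.Agent.N844.QP.sum_lin (fun x : k => quadraticChar k
      (x * (x + ((16 * n : ℤ) : k)) * (x + ((-9 * n : ℤ) : k)))) hn 0]
    refine Finset.sum_congr rfl fun z _ => ?_
    rw [← Pool.Agent.N844.QP.chi_sq hn ((n : k) * (z * (z - 9) * (z + 16)))]
    congr 1
    push_cast
    ring
  have e24 : trace k n (-3 * n) = - Pool.Agent.N844.QH.U24 (n : k) := by
    unfold trace Pool.Agent.N844.QH.U24
    rw [Pool.Agent.H82R3.EK.card_points hchar
      (fun x : k => x * (x + (n : k)) * (x + ((-3 * n : ℤ) : k))),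
      Nat.card_eq_fintype_card, sub_add_cancel_left]
    congr 1
    rw [← Pool.Agent.N844.QP.sum_lin (fun x : k => quadraticChar k
      (x * (x + (n : k)) * (x + ((-3 * n : ℤ) : k)))) hn 0]
    refine Finset.sum_congr rfl fun z _ => ?_
    rw [← Pool.Agent.N844.QP.chi_sq hn ((n : k) * (z * (z + 1) * (z - 3)))]
    congr 1
    push_cast
    ring
  unfold Decomposition
  rw [e15, e24, Nat.card_eq_fintype_card]
  have e0 : (numP A B k : ℤ) = (Pool.Agent.N844.QP.numP (A.map (Int.castRingHom k))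
    (B.map (Int.castRingHom k)) : ℤ) := rfl
  rw [e0, h1]
  ring

end proof

/-- **The Beilinson–Bloch conjecture for cycles of codimension three on fivefolds, for a positive
proportion of all the twists.** -/
theorem result :
    -- the natural density of the good `N`
    Filter.Tendsto (fun X : ℕ => (good X : ℝ) / (total X : ℝ))
      Filter.atTop (nhds (∏' i : ℕ, (1 - (1 / 2 : ℝ) ^ (i + 1)))) ∧
    -- the theorem for all pencils
    (∀ N : ℕ, Family N → ∀ m : ℤ, m ≠ 0 → ∀ A B : Matrix (Fin 8) (Fin 8) ℤ,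
      IsPencil (sf N) m A B →
        (∀ (k : Type) [Field k] [CharZero k], Smooth A B k) ∧
        (∀ (p : ℕ) (k : Type) [Field k] [CharP k p], p.Prime →
          ¬ (p : ℤ) ∣ 30 * (sf N * m) → Smooth A B k) ∧
        (∀ (p : ℕ) (k : Type) [Field k] [Finite k] [CharP k p], p.Prime →
          ¬ (p : ℤ) ∣ 30 * (sf N * m) → Decomposition A B (sf N) k) ∧
        ∃ L : ℂ → ℂ, IsL A B (30 * (sf N * m)) L ∧
          (NoOrderFour (sf N) → Finite (E15 (sf N)).toAffine.Point ∧
            Finite (E24 (sf N)).toAffine.Point ∧ L 3 ≠ 0)) ∧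
    -- an explicit pencil with a rational point, for every `n`
    ∀ n : ℤ, IsPencil n 1 (exA n) exB ∧ qf (exA n) pt = 0 ∧ qf exB pt = 0 := by
  classical
  refine ⟨?_, ?_, ?_⟩
  · have h := Pool.Agent.N916.AM.density_mod (m := 240) (by norm_num)
      (R := (Finset.range 240).filter fun r => (r % 8 = 3 ∨ r % 8 = 0) ∧ r % 3 ≠ 1 ∧
        (r % 5 = 0 ∨ r % 5 = 2 ∨ r % 5 = 3)) (n₀ := 3)
      Nat.prime_three.squarefree (by norm_num) (by decide)
    unfold Pool.Agent.N916.GB.eta at h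
    have hR : ∀ n : ℕ, n % 240 ∈ (Finset.range 240).filter (fun r =>
        (r % 8 = 3 ∨ r % 8 = 0) ∧ r % 3 ≠ 1 ∧ (r % 5 = 0 ∨ r % 5 = 2 ∨ r % 5 = 3)) ↔
        ((n % 8 = 3 ∨ 8 ∣ n) ∧ n % 3 ≠ 1 ∧ (n % 5 = 0 ∨ n % 5 = 2 ∨ n % 5 = 3)) := by
      intro n
      rw [Finset.mem_filter, Finset.mem_range]
      have h1 : n % 240 % 3 = n % 3 := Nat.mod_mod_of_dvd n (by norm_num)
      have h2 : n % 240 % 8 = n % 8 := Nat.mod_mod_of_dvd n (by norm_num)
      have h3 : n % 240 % 5 = n % 5 := Nat.mod_mod_of_dvd n (by norm_num)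
      rw [h1, h2, h3]
      constructor
      · rintro ⟨-, h3, h4⟩
        exact ⟨by omega, h4⟩
      · rintro ⟨h3, h4⟩
        exact ⟨Nat.mod_lt _ (by norm_num), by omega, h4⟩
    simp only [hR] at h
    refine h.congr fun X => congrArg₂ (fun a b : ℕ => (a : ℝ) / (b : ℝ)) ?_ ?_
    · refine congrArg Finset.card (Finset.ext fun n => ?_)
      refine (Finset.mem_filter).trans (Iff.trans ?_ (Finset.mem_filter).symm)
      refine and_congr_right fun _ => ?_
      constructor
      · rintro ⟨h1, h2, h3⟩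
        have hF : Family n := ⟨h1, h2⟩
        exact ⟨hF, (class_iff hF).2 h3⟩
      · rintro ⟨h1, h2⟩
        exact ⟨h1.1, h1.2, (class_iff h1).1 h2⟩
    · refine congrArg Finset.card (Finset.ext fun n => ?_)
      refine (Finset.mem_filter).trans (Iff.trans ?_ (Finset.mem_filter).symm)
      exact Iff.rfl
  · intro N h m hm A B hAB
    have hn : (sf N : ℤ) ≠ 0 := by exact_mod_cast (sf_pos h).ne'
    have hAB' : Pool.Agent.N844.QH.IsOct (sf N) m A B := ⟨hAB.symA, hAB.symB, hAB.disc⟩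
    have hM : (30 * ((sf N : ℤ) * m)) ≠ 0 := mul_ne_zero (by norm_num) (mul_ne_zero hn hm)
    refine ⟨fun k _ _ y hy h6 h7 => ?_, fun p k _ _ hp hpM y hy h6 h7 => ?_,
      fun p k _ _ _ hp hpM => ?_, ?_⟩
    · exact hAB'.smooth (by norm_num) (by norm_num) (by norm_num) (by exact_mod_cast hn)
        (by exact_mod_cast hm) hy h6 h7
    · have c0 : ∀ a : ℤ, a ∣ 30 * (sf N * m) → (a : k) ≠ 0 := fun a ha h0 =>
        hpM (((CharP.intCast_eq_zero_iff k p a).1 h0).trans ha)
      have k2 : (2 : k) ≠ 0 := by simpa using c0 2 ⟨15 * (sf N * m), by ring⟩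
      have k3 : (3 : k) ≠ 0 := by simpa using c0 3 ⟨10 * (sf N * m), by ring⟩
      have k5 : (5 : k) ≠ 0 := by simpa using c0 5 ⟨6 * (sf N * m), by ring⟩
      exact hAB'.smooth k2 k3 k5 (c0 (sf N) ⟨30 * m, by ring⟩) (c0 m ⟨30 * sf N, by ring⟩)
        hy h6 h7
    · exact decomp hAB k fun h0 => hpM ((CharP.intCast_eq_zero_iff k p _).1 h0)
    · obtain ⟨ω, hω, hL⟩ := Pool.Agent.N844.QH.euler8 hAB'
      have h30 : 30 * (sf N : ℤ) ∣ 30 * (sf N * m) := ⟨m, by ring⟩
      obtain ⟨H, h1, h2⟩ := lfun15 h hM h30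
      obtain ⟨H', h1', h2'⟩ := lfun24 h hM h30
      obtain ⟨L, l1, l2, l3⟩ := hL H H' h1 h1'
      refine ⟨L, ⟨l1, ω, hω, fun s hs => ?_⟩, fun hc => ?_⟩
      · exact l2 s hs
      · have hG := (class_iff h).1 hc
        refine ⟨finite15 h hG, finite24 h hG, ?_⟩
        rw [l3]
        exact mul_ne_zero (h2 hG) (pow_ne_zero 2 (h2' hG))
  · intro n
    refine ⟨⟨isSymm_diagonal _, isSymm_diagonal _, fun x z => ?_⟩, ?_, ?_⟩
    · have e : x • exA n - z • exB = diagonal (fun i => x * (![n, 0, -1, -1, 1, 2, 1, 3] : Fin 8 → ℤ) i -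
          z * (![0, -1, -1, 1, 2, -1, -3, 1] : Fin 8 → ℤ) i) := by
        unfold exA exB
        ext i j
        rw [Matrix.sub_apply, Matrix.smul_apply, Matrix.smul_apply, smul_eq_mul, smul_eq_mul]
        by_cases hij : i = j
        · subst hij
          rw [diagonal_apply_eq, diagonal_apply_eq, diagonal_apply_eq]
        · rw [diagonal_apply_ne _ hij, diagonal_apply_ne _ hij, diagonal_apply_ne _ hij]
          ring
      rw [e, det_diagonal, Fin.prod_univ_eight]
      simp only [Matrix.cons_val_zero, Matrix.cons_val_one, Matrix.cons_val]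
      ring
    · unfold qf exA pt
      simp [Fin.sum_univ_eight, dotProduct, mulVec_diagonal]
    · unfold qf exB pt
      simp [Fin.sum_univ_eight, dotProduct, mulVec_diagonal]

end Pool.Agent.Results.MP_b8021b_nt.QuadricFivefolds
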