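import Pool.Agent.N844.QP.Tower

/-!
# The Beilinson–Bloch conjecture for intersections of two quadrics over totally real fields

`E_m` is the quadratic twist by `m` of the modular curve `X_0(15)` (no complex multiplication), with the
equation `y² = x³ - 12987 m² x - 263466 m³`. We consider smooth complete intersections `X ⊂ P⁵` of two
quadrics, base loci of the pencils with the discriminant curve
`C : y² = 2a(aa'x² - 1)(aa'x² - 25)(3aa'x² + 125)` (up to squares), whose Jacobian `J` is isogenous to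
`E_{-a} × E_{-a'}`, over the totally real multiquadratic fields `F = ℚ(√d_1, …, √d_r)` of any degree
`2 ^ r`, for squarefree `d_t ≡ 1, 49 mod 60` and `a, a'` which are up to squares squarefree and
`≡ 23, 47 mod 60`. Here `CH²(X_F)_hom` is of finite index in `J(F)`, up to torsion.

Call the pair `(a, a')` good over `F` if the curves `E_{- a d_T}`, `E_{- a' d_T}` over `ℚ`,
`d_T = ∏_{t ∈ T} d_t`, which are the factors of the Weil restriction of `J` from `F` to `ℚ` up to isogeny, have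
finitely many rational points and no element of order two in the Tate-Shafarevich group. Let `c` be the
number of the different curves among them (`2 ^ r` if `a = a'`, and `2 · 2 ^ r` if `E_{-a}` and `E_{-a'}` are
not isomorphic over `F`).

(1) For good pairs `E_{-a}(F)` and `E_{-a'}(F)` are finite, and for ALL pencils as above the `L`-function of
`H³(X_F)`, given by the numbers of points of `X` over all finite extensions of the residue fields of `F`,
is entire and does not vanish at the centre `s = 2`.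
(2) For every `F` and every pair the twisted pair `(a D, a' D)` is good over `F` for the squarefree
`D ≡ 1, 49 mod 60` of natural density exactly `η ^ c`, `η = (1 - 1/2) (1 - 1/4) (1 - 1/8) ⋯ = 0.2888…`.
(3) For every `X` good over `F`, it is good over `F(√D)` for the `D` of natural density exactly `η ^ c`.
(4) For every `X` good over `F` there are `q_1 < q_2 < ⋯` such that `X` is good over all the fields
`F(√q_1, …, √q_k)`, of degree `2 ^ k` over `F`.
(5) For `a = a'` there is an explicit pencil.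

The threefolds are in `Pool/Agent/N844/QP` (the case of `ℚ`: `MP_6dc9d1_nt/QuadricPencils`). The densities
and the `L`-functions of the twists of `X_0(15)` over the fields `F` are the work of helper856 and others
(`Pool/Agent/N856/JL`, see `MP_1d384c_nt/TwistProductsX15`).
-/

set_option autoImplicit false

open NumberField IsDedekindDomain Filter Topology Matrix
open scoped LinearAlgebra.Projectivization

namespace Pool.Agent.Results.MP_b8021b_nt.QuadricPencilTowers

/-! ### the twists of `X_0(15)` and the fields -/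

/-- the twist `E_m : y² = x³ - 12987 m² x - 263466 m³` by `m` of `X_0(15)`, over the field `K` -/
def E (K : Type) [Field K] (m : ℤ) : WeierstrassCurve K :=
  { a₁ := 0, a₂ := 0, a₃ := 0, a₄ := ((-12987 * m ^ 2 : ℤ) : K), a₆ := ((-263466 * m ^ 3 : ℤ) : K) }

/-- `E_m(ℚ)` is finite and `Ш(E_m/ℚ)` has no element of order two -/
def RankZeroShaTwo (m : ℤ) : Prop :=
  Finite (E ℚ m).toAffine.Point ∧ ∀ x : Pool.Agent.TH841.NF.D.Sha (E ℚ m), 2 • x = 0 → x = 0

/-- the class `𝒩` of the squarefree `n` with `n ≡ 23, 47 mod 60` -/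
def Twist (n : ℕ) : Prop := Squarefree n ∧ (n % 60 = 23 ∨ n % 60 = 47)

/-- the class `𝒟` of the squarefree `d` with `d ≡ 1, 49 mod 60` -/
def Disc (d : ℕ) : Prop := Squarefree d ∧ (d % 60 = 1 ∨ d % 60 = 49)

/-- up to a square `z` has the property `C` -/
def UpToSq (C : ℕ → Prop) (z : ℕ) : Prop := ∃ n k : ℕ, C n ∧ k ≠ 0 ∧ z = n * k ^ 2

/-- `ℚ(√d_1, …, √d_r)` has degree `2 ^ r` -/
def Independent {r : ℕ} (d : Fin r → ℕ) : Prop :=
  ∀ T : Finset (Fin r), T.Nonempty → ¬ IsSquare (∏ t ∈ T, d t)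

/-- `K = ℚ(√d_1, …, √d_r)` -/
def IsMultiquadratic {r : ℕ} (d : Fin r → ℕ) (K : Type) [Field K] [NumberField K] : Prop :=
  ∃ x : Fin r → K, (∀ t, x t ^ 2 = (d t : K)) ∧ IntermediateField.adjoin ℚ (Set.range x) = ⊤

/-- the pair `e` is good over `K = ℚ(√d_1, …, √d_r)`: the curves `E_{- e_i ∏_{t ∈ T} d_t}` over `ℚ` have
finitely many rational points and no element of order two in the Tate-Shafarevich group -/
def Good {r : ℕ} (d : Fin r → ℕ) (e : Fin 2 → ℕ) : Prop :=
  ∀ i, ∀ T : Finset (Fin r), RankZeroShaTwo (-(e i : ℤ) * ∏ t ∈ T, (d t : ℤ))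

/-- the twist of the pair by `D` -/
def twist (e : Fin 2 → ℕ) (D : ℕ) : Fin 2 → ℕ := fun i => e i * D

/-- the number of the different curves among the curves `E_{- e_i ∏_{t ∈ T} d_t}` over `ℚ`, that is of the
different classes modulo squares of the numbers `e_i ∏_{t ∈ T} d_t` -/
noncomputable def curves {r : ℕ} (d : Fin r → ℕ) (e : Fin 2 → ℕ) : ℕ :=
  Set.ncard {s : ℕ | Squarefree s ∧ ∃ i, ∃ T : Finset (Fin r), ∃ k : ℕ, k ≠ 0 ∧
    e i * ∏ t ∈ T, d t = s * k ^ 2}

/-- the limit `(1 - 1/2) (1 - 1/4) (1 - 1/8) ⋯` -/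
noncomputable def eta : ℝ := ∏' i : ℕ, (1 - (1 / 2 : ℝ) ^ (i + 1))

open Classical in
/-- the number of the `m ≤ X` with the property `P` -/
noncomputable def count (P : ℕ → Prop) (X : ℕ) : ℕ := ((Finset.Icc 1 X).filter fun m => P m).card

/-- among the numbers with the property `P`, those with the property `Q` have natural density `δ` -/
def HasDensity (P Q : ℕ → Prop) (δ : ℝ) : Prop :=
  Tendsto (fun X : ℕ => (count (fun m => P m ∧ Q m) X : ℝ) / (count P X : ℝ)) atTop (𝓝 δ)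

/-! ### the intersections of two quadrics -/

/-- the quadratic form of a matrix -/
def qf {R : Type*} [CommRing R] {N : ℕ} (M : Matrix (Fin N) (Fin N) R) (y : Fin N → R) : R :=
  y ⬝ᵥ (M *ᵥ y)

/-- the integral pencils of quadrics in `P⁵` with the discriminant curve
`y² = 2a(aa'x² - 1)(aa'x² - 25)(3aa'x² + 125)` -/
structure IsPencil (a a' m : ℤ) (A B : Matrix (Fin 6) (Fin 6) ℤ) : Prop where
  symA : A.IsSymm
  symB : B.IsSymm
  disc : ∀ x : ℤ, -(x • A - B).det = 2 * a * m ^ 2 * ((a * a' * x ^ 2 - 1) *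
    (a * a' * x ^ 2 - 25) * (3 * (a * a') * x ^ 2 + 125))

/-- the reduction of an integral matrix to a field -/
def red {N : ℕ} (A : Matrix (Fin N) (Fin N) ℤ) (k : Type) [Field k] : Matrix (Fin N) (Fin N) k :=
  A.map (Int.castRingHom k)

/-- the base locus of the pencil is smooth over `k` (Jacobian criterion at the points over `k`) -/
def Smooth (A B : Matrix (Fin 6) (Fin 6) ℤ) (k : Type) [Field k] : Prop :=
  ∀ y : Fin 6 → k, y ≠ 0 → qf (red A k) y = 0 → qf (red B k) y = 0 →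
    LinearIndependent k ![red A k *ᵥ y, red B k *ᵥ y]

/-- the number of points over `k` of the base locus `X ⊂ P⁵` of the pencil -/
noncomputable def numP (A B : Matrix (Fin 6) (Fin 6) ℤ) (k : Type) [Field k] : ℕ :=
  Nat.card {P : ℙ k (Fin 6 → k) // qf (red A k) P.rep = 0 ∧ qf (red B k) P.rep = 0}

/-- the number `q_v` of elements of the residue field of a finite place `v` of `K` -/
noncomputable def qv (K : Type) [Field K] (v : HeightOneSpectrum (𝓞 K)) : ℕ :=
  Nat.card (𝓞 K ⧸ v.asIdeal)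

/-- `ω` are the eigenvalues of Frobenius at `v` on `H³(X)`: the number of points over every extension
`k` of degree `r` of the residue field is `1 + q^r + q^(2r) + q^(3r) - ∑ ω_j^r`, `q = q_v` -/
def IsFrob (K : Type) [Field K] (A B : Matrix (Fin 6) (Fin 6) ℤ) (v : HeightOneSpectrum (𝓞 K))
    (ω : Fin 4 → ℂ) : Prop :=
  (∀ j, ‖ω j‖ = (qv K v : ℝ) ^ ((3 : ℝ) / 2)) ∧
    ∀ (k : Type) [Field k] [Fintype k] [Algebra (𝓞 K ⧸ v.asIdeal) k] (r : ℕ),
      Fintype.card k = qv K v ^ r →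
      (numP A B k : ℂ) =
        1 + (qv K v : ℂ) ^ r + (qv K v : ℂ) ^ (2 * r) + (qv K v : ℂ) ^ (3 * r) - ∑ j, ω j ^ r

/-- `L` is entire and is, for `Re s > 5/2`, the Euler product of `∏_j (1 - ω_j q_v^{-s})⁻¹` over the finite
places `v` of `K` not dividing `M`, where `ω_j` are the eigenvalues of Frobenius at `v` on `H³(X)` -/
def IsL (K : Type) [Field K] (A B : Matrix (Fin 6) (Fin 6) ℤ) (M : ℤ) (L : ℂ → ℂ) : Prop :=
  Differentiable ℂ L ∧ ∃ ω : HeightOneSpectrum (𝓞 K) → Fin 4 → ℂ,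
    (∀ v, ((M : ℤ) : 𝓞 K) ∉ v.asIdeal → IsFrob K A B v (ω v)) ∧
    ∀ s : ℂ, (5 : ℝ) / 2 < s.re →
      HasProd (fun v : HeightOneSpectrum (𝓞 K) => open Classical in
        if ((M : ℤ) : 𝓞 K) ∈ v.asIdeal then 1 else ∏ j, (1 - ω v j * (qv K v : ℂ) ^ (-s))⁻¹) (L s)

/-- the conjecture for the intersections of two quadrics of the pair `e` over `K = ℚ(√d_1, …, √d_r)`,
with rank and order zero -/
def BeilinsonBloch {r : ℕ} (d : Fin r → ℕ) (e : Fin 2 → ℕ) : Prop :=
  ∀ (K : Type) [Field K] [NumberField K], IsMultiquadratic d K →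
    Module.finrank ℚ K = 2 ^ r ∧ (∀ i, Finite (E K (-(e i : ℤ))).toAffine.Point) ∧
    ∀ m : ℤ, m ≠ 0 → ∀ A B : Matrix (Fin 6) (Fin 6) ℤ, IsPencil (e 0) (e 1) m A B →
      (∀ (k : Type) [Field k] [CharZero k], Smooth A B k) ∧
      (∀ (p : ℕ) (k : Type) [Field k] [CharP k p], p.Prime →
        ¬ (p : ℤ) ∣ 30 * (e 0 * e 1 * m) → Smooth A B k) ∧
      ∃ L : ℂ → ℂ, IsL K A B (30 * (e 0 * e 1 * m) * ∏ t, (d t : ℤ)) L ∧ L 2 ≠ 0

/-- `a (10 a y₀² + y₁² + y₂² + y₃² + 3 y₄² - 5 y₅²)` -/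
def exA (a : ℤ) : Matrix (Fin 6) (Fin 6) ℤ :=
  !![10 * a ^ 2, 0, 0, 0, 0, 0;
     0, a, 0, 0, 0, 0;
     0, 0, a, 0, 0, 0;
     0, 0, 0, a, 0, 0;
     0, 0, 0, 0, 3 * a, 0;
     0, 0, 0, 0, 0, -5 * a]

/-- `10 a y₀² - y₁² + 5 y₂² - 5 y₃² - 50 y₄ y₅` -/
def exB (a : ℤ) : Matrix (Fin 6) (Fin 6) ℤ :=
  !![10 * a, 0, 0, 0, 0, 0;
     0, -1, 0, 0, 0, 0;
     0, 0, 5, 0, 0, 0;
     0, 0, 0, -5, 0, 0;
     0, 0, 0, 0, 0, -25;
     0, 0, 0, 0, -25, 0]

theorem beilinsonBloch {r : ℕ} {d : Fin r → ℕ} (hd : ∀ t, Disc (d t)) {e : Fin 2 → ℕ}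
    (he : ∀ i, UpToSq Twist (e i)) (hi : Independent d) (hg : Good d e) : BeilinsonBloch d e := by
  intro K _ _ hK
  obtain ⟨h1, h2, -, h4⟩ := Pool.Agent.N844.QP.Tower.threefold hd he hi hg K hK
  refine ⟨h1, h2, fun m hm A B hAB => ?_⟩
  have hn : (e 0 : ℤ) ≠ 0 := by exact_mod_cast (Pool.Agent.N844.QP.Tower.pos_e he 0).ne'
  have hn' : (e 1 : ℤ) ≠ 0 := by exact_mod_cast (Pool.Agent.N844.QP.Tower.pos_e he 1).ne'
  have hAB' : Pool.Agent.N844.QP.IsPencil (e 0) (e 1) m A B := ⟨hAB.symA, hAB.symB, hAB.disc⟩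
  refine ⟨fun k _ _ y hy h6 h7 => ?_, fun p k _ _ hp hpM y hy h6 h7 => ?_, ?_⟩
  · exact hAB'.smooth (by norm_num) (by norm_num) (by norm_num) (by exact_mod_cast hn)
      (by exact_mod_cast hn') (by exact_mod_cast hm) hy h6 h7
  · have c0 : ∀ a : ℤ, a ∣ 30 * (e 0 * e 1 * m) → (a : k) ≠ 0 := fun a ha h0 =>
      hpM (((CharP.intCast_eq_zero_iff k p a).1 h0).trans ha)
    have k2 : (2 : k) ≠ 0 := by simpa using c0 2 ⟨15 * (e 0 * e 1 * m), by ring⟩
    have k3 : (3 : k) ≠ 0 := by simpa using c0 3 ⟨10 * (e 0 * e 1 * m), by ring⟩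
    have k5 : (5 : k) ≠ 0 := by simpa using c0 5 ⟨6 * (e 0 * e 1 * m), by ring⟩
    exact hAB'.smooth k2 k3 k5 (c0 (e 0) ⟨30 * (e 1 * m), by ring⟩)
      (c0 (e 1) ⟨30 * (e 0 * m), by ring⟩) (c0 m ⟨30 * (e 0 * e 1), by ring⟩) hy h6 h7
  · obtain ⟨ω, hω, L, l1, l2, l3⟩ := h4 m hm A B hAB'
    exact ⟨L, ⟨l1, ω, hω, fun s hs => l2 s hs⟩, l3⟩

/-- **The Beilinson–Bloch conjecture for intersections of two quadrics in `P⁵` over totally real
multiquadratic fields: exact natural densities.** -/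
theorem result {r : ℕ} {d : Fin r → ℕ} (hd : ∀ t, Disc (d t)) :
    -- the conjecture for good pairs
    (∀ e : Fin 2 → ℕ, (∀ i, UpToSq Twist (e i)) → Independent d → Good d e →
      BeilinsonBloch d e) ∧
    -- fixed field, random quadratic twist
    (∀ e : Fin 2 → ℕ, (∀ i, UpToSq Twist (e i)) →
      (∀ D, Disc D → ∀ i, UpToSq Twist (twist e D i)) ∧
      HasDensity Disc (fun D => Good d (twist e D)) (eta ^ curves d e)) ∧
    (∀ e : Fin 2 → ℕ, (∀ i, UpToSq Disc (e i)) →
      (∀ n, Twist n → ∀ i, UpToSq Twist (twist e n i)) ∧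
      HasDensity Twist (fun n => Good d (twist e n)) (eta ^ curves d e)) ∧
    -- fixed threefold, random quadratic extension of the field
    (∀ e : Fin 2 → ℕ, (∀ i, UpToSq Twist (e i)) → Good d e →
      HasDensity Disc (fun D => Good (Fin.snoc d D : Fin (r + 1) → ℕ) e) (eta ^ curves d e)) ∧
    -- infinite towers
    (∀ e : Fin 2 → ℕ, (∀ i, UpToSq Twist (e i)) → Independent d → Good d e →
      ∃ q : ℕ → ℕ, StrictMono q ∧ (∀ j, Disc (q j)) ∧
        ∀ k, Independent (Fin.append d fun i : Fin k => q i) ∧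
          Good (Fin.append d fun i : Fin k => q i) e ∧
          BeilinsonBloch (Fin.append d fun i : Fin k => q i) e) ∧
    -- the exponents
    (Independent d → ∀ a : ℕ, 0 < a → curves d ![a, a] = 2 ^ r) ∧
    (Independent d → ∀ a a' : ℕ, 0 < a → 0 < a' →
      (∀ T : Finset (Fin r), ¬ IsSquare (a * a' * ∏ t ∈ T, d t)) → curves d ![a, a'] = 2 * 2 ^ r) ∧
    -- an explicit pencil for every `a`
    (∀ a : ℤ, IsPencil a a 5 (exA a) (exB a)) ∧
    0.2887 < eta ∧ eta < 0.2889 := by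
  obtain ⟨-, h2, h3, h4, h5, -, h7, h8⟩ := Pool.Agent.N856.JL.Av.main (ι := Fin 2) hd
  refine ⟨fun e he hi hg => beilinsonBloch hd he hi hg, fun e he => ⟨fun D hD i => ?_, h2 e he⟩,
    fun e he => ⟨fun n hn i => ?_, h3 e he⟩, fun e he hg => h4 e he hg, fun e he hi hg => ?_,
    fun hi a ha => ?_, fun hi a a' ha ha' h => ?_, fun a => ?_, h7, h8⟩
  · exact Pool.Agent.N844.QP.Tower.closed_tw he hD i
  · exact Pool.Agent.N844.QP.Tower.closed_tw' he hn i
  · obtain ⟨q, q1, q2, q3⟩ := h5 e he hi hg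
    refine ⟨q, q1, q2, fun k => ⟨(q3 k).1, (q3 k).2, ?_⟩⟩
    refine beilinsonBloch (fun t => ?_) he (q3 k).1 (q3 k).2
    refine Fin.addCases (fun i => ?_) (fun i => ?_) t
    · rw [Fin.append_left]
      exact hd i
    · rw [Fin.append_right]
      exact q2 i
  · exact Pool.Agent.N844.QP.Tower.curves_const hd hi ha
  · exact Pool.Agent.N844.QP.Tower.curves_pair hd hi ha ha' h
  · have h := Pool.Agent.N844.QP.ex_pencil a
    exact ⟨h.symA, h.symB, h.disc⟩

end Pool.Agent.Results.MP_b8021b_nt.QuadricPencilTowers
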