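import Pool.Agent.N19.BR.BB
import Pool.Agent.N19.BR.Sub2

/-!
# The Beilinson–Bloch conjecture on ranks of Chow groups: relations over fields with at most two real
places, cyclic Galois action and large local degrees, for all varieties at once

`K` is a number field, `L` a finite Galois extension of `K` and `S` a finite set of primes of `K`.

The proof.  There is a relation `∑ e_i [F_i] = c [K]` between the permutation characters of finite
extensions `F_i` of `K` with the properties below (`Pool.Agent.N19.BR`: relations with local conditions from
the splitting fields of the polynomials `(X^ℓ - a) h`, `a` a uniformizer at the primes in `S` and `h` of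
degree `ℓ` and irreducible modulo these primes, and relations for `F(√a_1, …, √a_r)`, `a_j` positive at
only one of the `r` real places of `F`).  The Frobenius eigenvalues of a variety `X / K` at a prime `w` of
`F_i` above `v` are the powers with exponent `f(w|v)` of those at `v`, so the relation gives
`L(X / K, s) ^ c = R(s) ∏ L(X_{F_i}, s) ^ e_i` with `R` from finitely many Euler factors
(`Pool.Agent.N19.BR.Abs`, `Mot`), and the same relation holds for the dimensions of the spaces fixed by the
absolute Galois groups (`Pool.Agent.N19.BR.Inv`).

The definitions are in `Pool.Agent.N19.BR.BBDefs`, `MDefs`, `TDefs`, `Defs` and in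
`Pool.Agent.W353.EF.Defs`.
-/

set_option autoImplicit false

namespace Pool.Agent.Results.MP_b8021b_nt.SpecialFields

open NumberField IsDedekindDomain Pool.Agent.N19.BR.TDef Pool.Agent.N19.BR.MDef

/-- **The Beilinson–Bloch formula.**  Let `L/K` be a finite Galois extension of number fields, `S` a finite
set of primes of `K` and `k ≥ 1`.  There is a list of number fields `F_i ⊇ K` with integers `e_i` and `c ≥ 1`
such that `L F_i / F_i` is cyclic, `k` divides the local degrees of `F_i / K` at all primes above `S`, `F_i`
has at most two real places, and such that the following holds for ALL smooth projective varieties `X` over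
`K`, of any dimension `d`, and all `1 ≤ m ≤ d`, with `V = CH^m_hom(X ⊗ K̄) ⊗ ℚ`, or any other representation:

if over all `F_i` the rank is finite and `ord_{s=m} L(H^{2m-1}(X), s) = rank + δ_i`, then over `K` the rank is
finite, `L(H^{2m-1}(X), s) ^ c` has a continuation with order `c rank + ∑ e_i δ_i`, and every continuation
of `L(H^{2m-1}(X), s)` has order `rank + (∑ e_i δ_i) / c`.

In particular the formula over the `F_i` (`δ_i = 0`) implies the formula over `K`, for every `X`. -/
theorem result (K : Type) [Field K] [NumberField K] (L : Type) [Field L] [NumberField L]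
    [Algebra K L] [IsGalois K L] (S : Set (HeightOneSpectrum (𝓞 K))) (hS : S.Finite) (k : ℕ)
    (hk : k ≠ 0) :
    ∃ Y : FieldList K, Special L S k Y ∧
      ∀ (n d m N : ℕ) (X : Set (MvPolynomial (Fin n) (𝓞 K))), 1 ≤ m → m ≤ d →
        ∀ (V : Type) [AddCommGroup V] [Module ℚ V]
          (ρ : Representation ℚ Gal(AlgebraicClosure K/K) V) (U : Set ℂ), Domain (2 * m - 1) U →
        ∀ δ : Fin Y.r → ℤ, (∀ i, RankFormula ρ X d m N U (δ i) (Y.F i)) →
          RankFormulaPow ρ X d m N U Y.c (∑ i, Y.e i * δ i) := by
  obtain ⟨r, Z, e, c, hc, hrel, hZ⟩ := Pool.Agent.N19.BR.list_cyclic K L hS hk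
  refine ⟨⟨r, fun i => Pool.Agent.N19.BR.img (Z i), fun i => Pool.Agent.N19.BR.img_nf (Z i), e, c, hc⟩,
    fun i => Pool.Agent.N19.BR.img_prop (Z i) (hZ i), ?_⟩
  intro n d m N X hm hmd V _ _ ρ U hU δ hδ
  exact Pool.Agent.N19.BR.formula_of_rel ρ _ hc (Pool.Agent.N19.BR.isRel_img' hrel) hm hmd hU hδ

end Pool.Agent.Results.MP_b8021b_nt.SpecialFields
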